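import Pool.Agent.ISO.StmtsR

/-!
# Squad ISO, block R, row APN

Problem MP_b48657_ag.  The functional equation of `f1` modulo every power of the maximal ideal.
-/

set_option autoImplicit false

namespace Pool.Agent.ISO.R.H26

open Finset Pool.Agent.Helper6_Mono Pool.Agent.Helper32_OMP Pool.Agent.ISO

theorem Mx_anti {σ : Type} {E E' : ℕ} (h : E ≤ E') {x : MvPolynomial σ ℂ}
    (hx : x ∈ Mx ℂ σ E') : x ∈ Mx ℂ σ E :=
  fun β hβ => hx β (lt_of_lt_of_le hβ h)

theorem pd_Mx {σ : Type} (i : σ) {E : ℕ} {x : MvPolynomial σ ℂ} (hx : x ∈ Mx ℂ σ (E + 1)) :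
    MvPolynomial.pderiv i x ∈ Mx ℂ σ E := by
  classical
  intro β hβ
  rw [← MvPolynomial.coeff_coe, ← MvPowerSeries.pderiv_coe, MvPowerSeries.coeff_pderiv,
    MvPolynomial.coeff_coe, hx _ _, zero_mul]
  rw [map_add, Finsupp.degree_single]
  omega

theorem dW_Mx {σ : Type} (w : List σ) : ∀ (E : ℕ) (x y : MvPolynomial σ ℂ),
    x - y ∈ Mx ℂ σ (E + w.length) → dWord w x - dWord w y ∈ Mx ℂ σ E := by
  induction w with
  | nil => intro E x y h; exact h
  | cons i w ih =>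
    intro E x y h
    have h1 : dWord w x - dWord w y ∈ Mx ℂ σ (E + 1) := by
      refine ih (E + 1) x y ?_
      rw [List.length_cons] at h
      have e : E + 1 + w.length = E + (w.length + 1) := by omega
      rw [e]
      exact h
    have h2 : dWord (i :: w) x - dWord (i :: w) y =
        MvPolynomial.pderiv i (dWord w x - dWord w y) := by
      rw [map_sub]
      rfl
    rw [h2]
    exact pd_Mx i h1

/-- truncation of the coefficients -/
noncomputable def tr {σ : Type} [Fintype σ] (E : ℕ) (c : Polynomial (MvPowerSeries σ ℂ)) :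
    Polynomial (MvPolynomial σ ℂ) :=
  ∑ m ∈ c.support, Polynomial.monomial m (MvPowerSeries.truncTotal E (c.coeff m))

theorem tr_deg {σ : Type} [Fintype σ] (E : ℕ) (c : Polynomial (MvPowerSeries σ ℂ)) :
    (tr E c).natDegree ≤ c.natDegree := by
  refine Polynomial.natDegree_sum_le_of_forall_le _ _ fun m hm => ?_
  exact le_trans (Polynomial.natDegree_monomial_le _) (Polynomial.le_natDegree_of_mem_supp m hm)

theorem tr_eval {σ : Type} [Fintype σ] (E : ℕ) (c : Polynomial (MvPowerSeries σ ℂ)) (n : ℕ) :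
    c.eval (n : MvPowerSeries σ ℂ) -
      (((tr E c).eval (n : MvPolynomial σ ℂ) : MvPolynomial σ ℂ) : MvPowerSeries σ ℂ) ∈
      JO ℂ σ E := by
  have h1 : (((tr E c).eval (n : MvPolynomial σ ℂ) : MvPolynomial σ ℂ) : MvPowerSeries σ ℂ) =
      ∑ m ∈ c.support, ((MvPowerSeries.truncTotal E (c.coeff m) : MvPolynomial σ ℂ) :
        MvPowerSeries σ ℂ) * (n : MvPowerSeries σ ℂ) ^ m := by
    unfold tr
    rw [Polynomial.eval_finsetSum]
    simp only [Polynomial.eval_monomial]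
    rw [← MvPolynomial.coeToMvPowerSeries.ringHom_apply, map_sum]
    refine Finset.sum_congr rfl fun m _ => ?_
    rw [map_mul, map_pow, map_natCast]
    rfl
  rw [h1, Polynomial.eval_eq_sum, Polynomial.sum, ← Finset.sum_sub_distrib]
  refine Ideal.sum_mem _ fun m _ => ?_
  rw [← sub_mul]
  refine Ideal.mul_mem_right _ _ ?_
  rw [mem_JO]
  intro β hβ
  rw [map_sub, MvPolynomial.coeff_coe, MvPowerSeries.coeff_truncTotal _ hβ, sub_self]

theorem pow_Mx {σ : Type} {E : ℕ} {x y : MvPolynomial σ ℂ} (h : x - y ∈ Mx ℂ σ E) (n : ℕ) :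
    x ^ n - y ^ n ∈ Mx ℂ σ E := by
  obtain ⟨z, hz⟩ := sub_dvd_pow_sub_pow x y n
  rw [hz]
  exact Ideal.mul_mem_right _ _ h

theorem apn (hBAB : BabStmt) : ApnStmt := by
  intro σ _ f f1 p b hA hL
  obtain ⟨W, d, hB⟩ := hBAB σ p f b hL
  refine ⟨W, d, fun E => ?_⟩
  obtain ⟨ψ, u, hψ, hli, hu, hf⟩ := hA (E + W)
  have hG : u * MvPolynomial.aeval ψ f - f1 ∈ Mx ℂ σ (E + W) := hf
  set G : MvPolynomial σ ℂ := u * MvPolynomial.aeval ψ f with hGdef
  have hCo : Co p (fun l => ((ψ l : MvPolynomial σ ℂ) : MvPowerSeries σ ℂ)) := by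
    constructor
    · intro l
      rw [← MvPowerSeries.coeff_zero_eq_constantCoeff_apply, MvPolynomial.coeff_coe,
        ← MvPolynomial.constantCoeff_eq]
      exact hψ l
    · simp only [MvPolynomial.coeff_coe]
      exact hli
  have hu1 : MvPowerSeries.constantCoeff (u : MvPowerSeries σ ℂ) = 1 := by
    rw [← MvPowerSeries.coeff_zero_eq_constantCoeff_apply, MvPolynomial.coeff_coe,
      ← MvPolynomial.constantCoeff_eq]
    exact hu
  have hu0 : MvPowerSeries.constantCoeff (u : MvPowerSeries σ ℂ) ≠ 0 := by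
    rw [hu1]
    exact one_ne_zero
  have he : MvPowerSeries.constantCoeff ((u : MvPowerSeries σ ℂ)⁻¹) ≠ 0 := by
    rw [MvPowerSeries.constantCoeff_inv, hu1]
    simp
  have hae : MvPolynomial.aeval (fun l => ((ψ l : MvPolynomial σ ℂ) : MvPowerSeries σ ℂ)) f =
      ((MvPolynomial.aeval ψ f : MvPolynomial σ ℂ) : MvPowerSeries σ ℂ) := by
    have h1 : (MvPolynomial.aeval (fun l => ((ψ l : MvPolynomial σ ℂ) : MvPowerSeries σ ℂ)) :
        MvPolynomial σ ℂ →ₐ[ℂ] MvPowerSeries σ ℂ).toRingHom =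
        (MvPolynomial.coeToMvPowerSeries.ringHom).comp
          (MvPolynomial.aeval ψ : MvPolynomial σ ℂ →ₐ[ℂ] MvPolynomial σ ℂ).toRingHom := by
      refine MvPolynomial.ringHom_ext ?_ ?_
      · intro r
        simp
        rfl
      · intro i
        simp
    have h2 := congrArg (fun g : MvPolynomial σ ℂ →+* MvPowerSeries σ ℂ => g f) h1
    exact h2
  have heq : MvPolynomial.aeval (fun l => ((ψ l : MvPolynomial σ ℂ) : MvPowerSeries σ ℂ)) f =
      (u : MvPowerSeries σ ℂ)⁻¹ * (G : MvPowerSeries σ ℂ) := by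
    rw [hae, hGdef, MvPolynomial.coe_mul, ← mul_assoc, MvPowerSeries.inv_mul_cancel _ hu0, one_mul]
  obtain ⟨c, hc, hn⟩ := hB _ _ G hCo he heq
  refine ⟨fun w => tr E (c w), fun w => le_trans (tr_deg E (c w)) (hc w), fun n => ?_⟩
  rw [← coe_mem_JO]
  have h3 : ((MvPolynomial.C (b.eval (n : ℂ)) * f1 ^ n -
      ∑ w ∈ Wd σ W, (tr E (c w)).eval (n : MvPolynomial σ ℂ) * dWord w (f1 ^ (n + 1)) :
        MvPolynomial σ ℂ) : MvPowerSeries σ ℂ) =
      MvPowerSeries.C (b.eval (n : ℂ)) * (((f1 ^ n - G ^ n : MvPolynomial σ ℂ)) :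
        MvPowerSeries σ ℂ) +
      ∑ w ∈ Wd σ W, (((c w).eval (n : MvPowerSeries σ ℂ) -
          (((tr E (c w)).eval (n : MvPolynomial σ ℂ) : MvPolynomial σ ℂ) : MvPowerSeries σ ℂ)) *
          ((dWord w (G ^ (n + 1)) : MvPolynomial σ ℂ) : MvPowerSeries σ ℂ) +
        (((tr E (c w)).eval (n : MvPolynomial σ ℂ) : MvPolynomial σ ℂ) : MvPowerSeries σ ℂ) *
          (((dWord w (G ^ (n + 1)) - dWord w (f1 ^ (n + 1)) : MvPolynomial σ ℂ)) :
            MvPowerSeries σ ℂ)) := by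
    have h4 : ∑ w ∈ Wd σ W, (((c w).eval (n : MvPowerSeries σ ℂ) -
          (((tr E (c w)).eval (n : MvPolynomial σ ℂ) : MvPolynomial σ ℂ) : MvPowerSeries σ ℂ)) *
          ((dWord w (G ^ (n + 1)) : MvPolynomial σ ℂ) : MvPowerSeries σ ℂ) +
        (((tr E (c w)).eval (n : MvPolynomial σ ℂ) : MvPolynomial σ ℂ) : MvPowerSeries σ ℂ) *
          (((dWord w (G ^ (n + 1)) - dWord w (f1 ^ (n + 1)) : MvPolynomial σ ℂ)) :
            MvPowerSeries σ ℂ)) =
        ∑ w ∈ Wd σ W, ((c w).eval (n : MvPowerSeries σ ℂ) *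
          ((dWord w (G ^ (n + 1)) : MvPolynomial σ ℂ) : MvPowerSeries σ ℂ)) -
        ∑ w ∈ Wd σ W,
          ((((tr E (c w)).eval (n : MvPolynomial σ ℂ) : MvPolynomial σ ℂ) : MvPowerSeries σ ℂ) *
          ((dWord w (f1 ^ (n + 1)) : MvPolynomial σ ℂ) : MvPowerSeries σ ℂ)) := by
      rw [← Finset.sum_sub_distrib]
      refine Finset.sum_congr rfl fun w _ => ?_
      have h5 : (((dWord w (G ^ (n + 1)) - dWord w (f1 ^ (n + 1)) : MvPolynomial σ ℂ)) :
            MvPowerSeries σ ℂ) = ((dWord w (G ^ (n + 1)) : MvPolynomial σ ℂ) : MvPowerSeries σ ℂ) -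
            ((dWord w (f1 ^ (n + 1)) : MvPolynomial σ ℂ) : MvPowerSeries σ ℂ) :=
        map_sub (MvPolynomial.coeToMvPowerSeries.ringHom) _ _
      rw [h5]
      ring
    rw [h4, ← hn n]
    have h6 : ∀ x y : MvPolynomial σ ℂ, ((x - y : MvPolynomial σ ℂ) : MvPowerSeries σ ℂ) =
        (x : MvPowerSeries σ ℂ) - (y : MvPowerSeries σ ℂ) := fun x y =>
      map_sub (MvPolynomial.coeToMvPowerSeries.ringHom) x y
    have h7 : ((∑ w ∈ Wd σ W, (tr E (c w)).eval (n : MvPolynomial σ ℂ) * dWord w (f1 ^ (n + 1)) :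
        MvPolynomial σ ℂ) : MvPowerSeries σ ℂ) =
        ∑ w ∈ Wd σ W,
          ((((tr E (c w)).eval (n : MvPolynomial σ ℂ) : MvPolynomial σ ℂ) : MvPowerSeries σ ℂ) *
          ((dWord w (f1 ^ (n + 1)) : MvPolynomial σ ℂ) : MvPowerSeries σ ℂ)) := by
      rw [← MvPolynomial.coeToMvPowerSeries.ringHom_apply, map_sum]
      refine Finset.sum_congr rfl fun w _ => ?_
      rw [map_mul]
      rfl
    rw [h6, h6, h7, MvPolynomial.coe_mul, MvPolynomial.coe_C, MvPolynomial.coe_pow,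
      MvPolynomial.coe_pow]
    ring
  rw [h3]
  refine Ideal.add_mem _ (Ideal.mul_mem_left _ _ ?_) (Ideal.sum_mem _ fun w hw => ?_)
  · rw [coe_mem_JO]
    have h8 := pow_Mx hG n
    have h9 : f1 ^ n - G ^ n ∈ Mx ℂ σ (E + W) := by
      have h10 := Ideal.neg_mem_iff _ |>.2 h8
      rw [neg_sub] at h10
      exact h10
    exact Mx_anti (Nat.le_add_right E W) h9
  · refine Ideal.add_mem _ (Ideal.mul_mem_right _ _ (tr_eval E (c w) n))
      (Ideal.mul_mem_left _ _ ?_)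
    rw [coe_mem_JO]
    refine dW_Mx w E _ _ (Mx_anti ?_ (pow_Mx hG (n + 1)))
    have := mem_Wd.1 hw
    omega

end Pool.Agent.ISO.R.H26
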